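import Pool.Agent.U26.SG.Stm2

/-!
Project SG, package SER: the sum of the Taylor expansion of a solution of `Δf + f = 0`.
-/

set_option autoImplicit false
open MeasureTheory Filter Topology Complex
open scoped ContDiff

namespace Pool.Agent.U55.SG

open Pool.Agent.U26.SG
open Pool.Agent.W745.RW (lap dx dy)

noncomputable section

def cst (x : ℤ → ℂ) (k : ℤ) (p : ℕ × ℕ) : ℂ :=
  (-1) ^ p.2 * x (k + ((p.1 : ℤ) - p.2)) / (p.1.factorial * p.2.factorial : ℕ)

def T (x : ℤ → ℂ) (k : ℤ) (p : ℕ × ℕ) (w : ℂ) : ℂ :=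
  cst x k p * ((w / 2) ^ p.1 * (starRingEnd ℂ w / 2) ^ p.2)

def A (x : ℤ → ℂ) (k : ℤ) (p : ℕ × ℕ) (w : ℂ) : ℂ :=
  cst x k p * ((p.1 * (w / 2) ^ (p.1 - 1)) * (starRingEnd ℂ w / 2) ^ p.2)

def B (x : ℤ → ℂ) (k : ℤ) (p : ℕ × ℕ) (w : ℂ) : ℂ :=
  cst x k p * ((w / 2) ^ p.1 * (p.2 * (starRingEnd ℂ w / 2) ^ (p.2 - 1)))

def L1 : ℂ →L[ℝ] ℂ := (1 / 2 : ℂ) • (ContinuousLinearMap.id ℝ ℂ)
def L2 : ℂ →L[ℝ] ℂ := (1 / 2 : ℂ) • (conjCLE : ℂ →L[ℝ] ℂ)

theorem L1_apply (v : ℂ) : L1 v = v / 2 := by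
  simp only [L1, ContinuousLinearMap.smul_apply, ContinuousLinearMap.id_apply, smul_eq_mul]
  ring

theorem L2_apply (v : ℂ) : L2 v = starRingEnd ℂ v / 2 := by
  change (1 / 2 : ℂ) * starRingEnd ℂ v = _
  ring

theorem norm_L1 : ‖L1‖ ≤ 1 := by
  refine ContinuousLinearMap.opNorm_le_bound _ zero_le_one fun v => ?_
  rw [L1_apply, norm_div]
  have := norm_nonneg v
  simp only [Complex.norm_ofNat]
  linarith

theorem norm_L2 : ‖L2‖ ≤ 1 := by
  refine ContinuousLinearMap.opNorm_le_bound _ zero_le_one fun v => ?_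
  rw [L2_apply, norm_div, RCLike.norm_conj]
  have := norm_nonneg v
  simp only [Complex.norm_ofNat]
  linarith

def D (x : ℤ → ℂ) (k : ℤ) (p : ℕ × ℕ) (w : ℂ) : ℂ →L[ℝ] ℂ := A x k p w • L1 + B x k p w • L2

theorem hasFDerivAt_T (x : ℤ → ℂ) (k : ℤ) (p : ℕ × ℕ) (w : ℂ) :
    HasFDerivAt (T x k p) (D x k p w) w := by
  have h1 : HasFDerivAt (fun w : ℂ => w / 2) L1 w := by
    have := L1.hasFDerivAt (x := w)
    have e : (fun w : ℂ => w / 2) = L1 := by funext v; rw [L1_apply]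
    rw [e]; exact this
  have h2 : HasFDerivAt (fun w : ℂ => starRingEnd ℂ w / 2) L2 w := by
    have := L2.hasFDerivAt (x := w)
    have e : (fun w : ℂ => starRingEnd ℂ w / 2) = L2 := by funext v; rw [L2_apply]
    rw [e]; exact this
  have h := ((h1.pow p.1).mul (h2.pow p.2)).const_mul (cst x k p)
  refine HasFDerivAt.congr_fderiv h ?_
  ext v
  simp only [D, A, B, ContinuousLinearMap.smul_apply, ContinuousLinearMap.add_apply, smul_eq_mul,
    nsmul_eq_mul]
  ring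

theorem A_succ (x : ℤ → ℂ) (k : ℤ) (a b : ℕ) (w : ℂ) : A x k (a + 1, b) w = T x (k + 1) (a, b) w := by
  unfold A T cst
  have e : k + (((a + 1 : ℕ) : ℤ) - b) = k + 1 + ((a : ℤ) - b) := by push_cast; ring
  simp only [e, Nat.factorial_succ, Nat.add_sub_cancel]
  have h1 : ((a.factorial : ℕ) : ℂ) ≠ 0 := by exact_mod_cast a.factorial_ne_zero
  have h2 : ((b.factorial : ℕ) : ℂ) ≠ 0 := by exact_mod_cast b.factorial_ne_zero
  have h3 : ((a : ℂ) + 1) ≠ 0 := by exact_mod_cast Nat.succ_ne_zero a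
  push_cast
  field_simp

theorem B_succ (x : ℤ → ℂ) (k : ℤ) (a b : ℕ) (w : ℂ) :
    B x k (a, b + 1) w = - T x (k - 1) (a, b) w := by
  unfold B T cst
  have e : k + ((a : ℤ) - ((b + 1 : ℕ) : ℤ)) = k - 1 + ((a : ℤ) - b) := by push_cast; ring
  simp only [e, Nat.factorial_succ, Nat.add_sub_cancel]
  have h1 : ((a.factorial : ℕ) : ℂ) ≠ 0 := by exact_mod_cast a.factorial_ne_zero
  have h2 : ((b.factorial : ℕ) : ℂ) ≠ 0 := by exact_mod_cast b.factorial_ne_zero
  have h3 : ((b : ℂ) + 1) ≠ 0 := by exact_mod_cast Nat.succ_ne_zero b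
  push_cast
  field_simp
  ring

theorem A_zero (x : ℤ → ℂ) (k : ℤ) (b : ℕ) (w : ℂ) : A x k (0, b) w = 0 := by
  simp [A]

theorem B_zero (x : ℤ → ℂ) (k : ℤ) (a : ℕ) (w : ℂ) : B x k (a, 0) w = 0 := by
  simp [B]

theorem tsum_A (x : ℤ → ℂ) (k : ℤ) (w : ℂ) :
    ∑' p : ℕ × ℕ, A x k p w = ∑' p : ℕ × ℕ, T x (k + 1) p w := by
  have hg : Function.Injective (fun p : ℕ × ℕ => (p.1 + 1, p.2)) := by
    rintro ⟨a, b⟩ ⟨c, d⟩ h
    simp only [Prod.mk.injEq, Nat.add_right_cancel_iff] at h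
    exact Prod.ext h.1 h.2
  rw [← hg.tsum_eq (f := fun p => A x k p w) ?_]
  · exact tsum_congr fun p => A_succ x k p.1 p.2 w
  · rintro ⟨a, b⟩ h
    rcases a with _ | a
    · exact absurd (A_zero x k b w) h
    · exact ⟨(a, b), rfl⟩

theorem tsum_B (x : ℤ → ℂ) (k : ℤ) (w : ℂ) :
    ∑' p : ℕ × ℕ, B x k p w = - ∑' p : ℕ × ℕ, T x (k - 1) p w := by
  have hg : Function.Injective (fun p : ℕ × ℕ => (p.1, p.2 + 1)) := by
    rintro ⟨a, b⟩ ⟨c, d⟩ h
    simp only [Prod.mk.injEq, Nat.add_right_cancel_iff] at h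
    exact Prod.ext h.1 h.2
  rw [← hg.tsum_eq (f := fun p => B x k p w) ?_, ← tsum_neg]
  · exact tsum_congr fun p => B_succ x k p.1 p.2 w
  · rintro ⟨a, b⟩ h
    rcases b with _ | b
    · exact absurd (B_zero x k a w) h
    · exact ⟨(a, b), rfl⟩

/-! ### bounds -/

def M (C r : ℝ) (k : ℤ) (p : ℕ × ℕ) : ℝ :=
  C * 2 ^ k.natAbs * ((2 * r) ^ p.1 / p.1.factorial * ((2 * r) ^ p.2 / p.2.factorial))

theorem summable_M (C r : ℝ) (hr : 0 ≤ r) (k : ℤ) : Summable (M C r k) := by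
  refine Summable.mul_left _ ?_
  have h := Real.summable_pow_div_factorial (2 * r)
  exact h.mul_of_nonneg h (fun n => by positivity) (fun n => by positivity)

theorem cst_le (x : ℤ → ℂ) (C : ℝ) (hC : ∀ k : ℤ, ‖x k‖ ≤ C * 2 ^ k.natAbs) (k : ℤ) (p : ℕ × ℕ) :
    ‖cst x k p‖ ≤ C * 2 ^ k.natAbs * (2 ^ p.1 / p.1.factorial * (2 ^ p.2 / p.2.factorial)) := by
  have hC0 : 0 ≤ C := by
    have := (norm_nonneg _).trans (hC 0)
    simpa using this
  have h1 : ‖x (k + ((p.1 : ℤ) - p.2))‖ ≤ C * (2 ^ k.natAbs * 2 ^ p.1 * 2 ^ p.2) := by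
    refine (hC _).trans ?_
    rw [← pow_add, ← pow_add]
    refine mul_le_mul_of_nonneg_left ?_ hC0
    apply pow_le_pow_right₀ (by norm_num)
    omega
  unfold cst
  rw [norm_div, norm_mul, norm_pow, norm_neg, norm_one, one_pow, one_mul, Complex.norm_natCast]
  push_cast
  have ha : (0 : ℝ) < p.1.factorial := by exact_mod_cast p.1.factorial_pos
  have hb : (0 : ℝ) < p.2.factorial := by exact_mod_cast p.2.factorial_pos
  rw [div_le_iff₀ (mul_pos ha hb)]
  refine h1.trans (le_of_eq ?_)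
  field_simp

theorem bd (x : ℤ → ℂ) (C : ℝ) (hC : ∀ k : ℤ, ‖x k‖ ≤ C * 2 ^ k.natAbs) (k : ℤ) (p : ℕ × ℕ)
    (r U V : ℝ) (hr : 0 ≤ r) (hU0 : 0 ≤ U) (hV0 : 0 ≤ V) (hU : U ≤ r ^ p.1) (hV : V ≤ r ^ p.2) :
    ‖cst x k p‖ * (U * V) ≤ M C r k p := by
  have hC0 : 0 ≤ C := by
    have := (norm_nonneg _).trans (hC 0)
    simpa using this
  calc ‖cst x k p‖ * (U * V) ≤
      (C * 2 ^ k.natAbs * (2 ^ p.1 / p.1.factorial * (2 ^ p.2 / p.2.factorial))) *
        (r ^ p.1 * r ^ p.2) := by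
        apply mul_le_mul (cst_le x C hC k p) _ (mul_nonneg hU0 hV0) (by positivity)
        exact mul_le_mul hU hV hV0 (by positivity)
    _ = M C r k p := by
        unfold M
        rw [mul_pow, mul_pow]
        ring

theorem pow_le (r t : ℝ) (a : ℕ) (hr : 2 ≤ r) (ht0 : 0 ≤ t) (ht : t ≤ r / 2) : t ^ a ≤ r ^ a :=
  pow_le_pow_left₀ ht0 (by linarith) a

theorem mul_pow_le (r t : ℝ) (a : ℕ) (hr : 2 ≤ r) (ht0 : 0 ≤ t) (ht : t ≤ r / 2) :
    a * t ^ (a - 1) ≤ r ^ a := by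
  rcases a with _ | a
  · simp
  · rw [Nat.add_sub_cancel]
    have h1 : ((a + 1 : ℕ) : ℝ) ≤ 2 ^ (a + 1) := by
      exact_mod_cast (Nat.lt_two_pow_self (n := a + 1)).le
    have h2 : t ^ a ≤ (r / 2) ^ (a + 1) := by
      refine (pow_le_pow_left₀ ht0 ht a).trans ?_
      exact pow_le_pow_right₀ (by linarith) (Nat.le_succ a)
    calc ((a + 1 : ℕ) : ℝ) * t ^ a ≤ 2 ^ (a + 1) * (r / 2) ^ (a + 1) :=
          mul_le_mul h1 h2 (by positivity) (by positivity)
      _ = r ^ (a + 1) := by rw [← mul_pow]; congr 1; ring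

section main

variable (x : ℤ → ℂ) (C : ℝ) (hC : ∀ k : ℤ, ‖x k‖ ≤ C * 2 ^ k.natAbs)

include hC

theorem T_le (k : ℤ) (p : ℕ × ℕ) (r : ℝ) (hr : 2 ≤ r) (w : ℂ) (hw : ‖w‖ ≤ r) :
    ‖T x k p w‖ ≤ M C r k p := by
  unfold T
  rw [norm_mul, norm_mul, norm_pow, norm_pow, norm_div, norm_div, RCLike.norm_conj,
    Complex.norm_ofNat]
  exact bd x C hC k p r _ _ (by linarith) (by positivity) (by positivity)
    (pow_le r _ _ hr (by positivity) (by linarith)) (pow_le r _ _ hr (by positivity) (by linarith))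

theorem A_le (k : ℤ) (p : ℕ × ℕ) (r : ℝ) (hr : 2 ≤ r) (w : ℂ) (hw : ‖w‖ ≤ r) :
    ‖A x k p w‖ ≤ M C r k p := by
  unfold A
  rw [norm_mul, norm_mul, norm_mul, norm_pow, norm_pow, norm_div, norm_div, RCLike.norm_conj,
    Complex.norm_ofNat, Complex.norm_natCast]
  exact bd x C hC k p r _ _ (by linarith) (by positivity) (by positivity)
    (mul_pow_le r _ _ hr (by positivity) (by linarith)) (pow_le r _ _ hr (by positivity) (by linarith))

theorem B_le (k : ℤ) (p : ℕ × ℕ) (r : ℝ) (hr : 2 ≤ r) (w : ℂ) (hw : ‖w‖ ≤ r) :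
    ‖B x k p w‖ ≤ M C r k p := by
  unfold B
  rw [norm_mul, norm_mul, norm_mul, norm_pow, norm_pow, norm_div, norm_div, RCLike.norm_conj,
    Complex.norm_ofNat, Complex.norm_natCast]
  exact bd x C hC k p r _ _ (by linarith) (by positivity) (by positivity)
    (pow_le r _ _ hr (by positivity) (by linarith)) (mul_pow_le r _ _ hr (by positivity) (by linarith))

theorem summable_T (k : ℤ) (w : ℂ) : Summable fun p => T x k p w :=
  Summable.of_norm_bounded (summable_M C (max 2 ‖w‖) (by positivity) k) fun p =>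
    T_le x C hC k p _ (le_max_left _ _) w (le_max_right _ _)

theorem summable_A (k : ℤ) (w : ℂ) : Summable fun p => A x k p w :=
  Summable.of_norm_bounded (summable_M C (max 2 ‖w‖) (by positivity) k) fun p =>
    A_le x C hC k p _ (le_max_left _ _) w (le_max_right _ _)

theorem summable_B (k : ℤ) (w : ℂ) : Summable fun p => B x k p w :=
  Summable.of_norm_bounded (summable_M C (max 2 ‖w‖) (by positivity) k) fun p =>
    B_le x C hC k p _ (le_max_left _ _) w (le_max_right _ _)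

theorem hasFDerivAt_F (k : ℤ) (w : ℂ) : HasFDerivAt (fun w => ∑' p, T x k p w)
    ((∑' p, T x (k + 1) p w) • L1 - (∑' p, T x (k - 1) p w) • L2) w := by
  obtain ⟨r, hr⟩ : ∃ r, r = max 2 (‖w‖ + 1) := ⟨_, rfl⟩
  have hr2 : 2 ≤ r := by rw [hr]; exact le_max_left _ _
  have hrw : ‖w‖ < r := by
    rw [hr]; exact lt_of_lt_of_le (by linarith) (le_max_right _ _)
  have h := hasFDerivAt_tsum_of_isPreconnected (𝕜 := ℝ) (f := T x k) (f' := D x k)
    (s := Metric.ball (0 : ℂ) r) (x₀ := 0) (x := w)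
    (((summable_M C r (by linarith) k).add (summable_M C r (by linarith) k)))
    Metric.isOpen_ball (convex_ball _ _).isPreconnected
    (fun p v _ => hasFDerivAt_T x k p v)
    (fun p v hv => by
      have hv' : ‖v‖ ≤ r := by
        rw [mem_ball_zero_iff] at hv; exact hv.le
      unfold D
      refine (norm_add_le _ _).trans (add_le_add ?_ ?_)
      · rw [norm_smul]
        exact (mul_le_of_le_one_right (norm_nonneg _) norm_L1).trans (A_le x C hC k p r hr2 v hv')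
      · rw [norm_smul]
        exact (mul_le_of_le_one_right (norm_nonneg _) norm_L2).trans (B_le x C hC k p r hr2 v hv'))
    (by rw [mem_ball_zero_iff, norm_zero]; linarith) (summable_T x C hC k 0)
    (by rw [mem_ball_zero_iff]; exact hrw)
  refine HasFDerivAt.congr_fderiv h ?_
  unfold D
  rw [Summable.tsum_add ((summable_A x C hC k w).smul_const L1) ((summable_B x C hC k w).smul_const L2),
    (summable_A x C hC k w).tsum_smul_const, (summable_B x C hC k w).tsum_smul_const, tsum_A, tsum_B,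
    neg_smul, ← sub_eq_add_neg]

theorem contDiff_F (n : ℕ) : ∀ k : ℤ, ContDiff ℝ n (fun w => ∑' p, T x k p w) := by
  induction n with
  | zero =>
    intro k
    rw [Nat.cast_zero, contDiff_zero]
    exact continuous_iff_continuousAt.2 fun w => (hasFDerivAt_F x C hC k w).continuousAt
  | succ n ih =>
    intro k
    push_cast
    rw [contDiff_succ_iff_hasFDerivAt]
    refine ⟨_, ?_, fun w => hasFDerivAt_F x C hC k w⟩
    exact ((ih (k + 1)).smul contDiff_const).sub ((ih (k - 1)).smul contDiff_const)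

theorem contDiff_F' (k : ℤ) : ContDiff ℝ ∞ (fun w => ∑' p, T x k p w) :=
  contDiff_infty.2 fun n => contDiff_F x C hC n k

theorem hre (k : ℤ) (c : ℂ) (w : ℂ) : HasFDerivAt (fun w => (c * ∑' p, T x k p w).re)
    (reCLM.comp (c • ((∑' p, T x (k + 1) p w) • L1 - (∑' p, T x (k - 1) p w) • L2))) w :=
  reCLM.hasFDerivAt.comp w ((hasFDerivAt_F x C hC k w).const_mul c)

theorem dx_re (k : ℤ) (c : ℂ) : dx (fun w => (c * ∑' p, T x k p w).re) =
    fun w => (c / 2 * ∑' p, T x (k + 1) p w).re + (-(c / 2) * ∑' p, T x (k - 1) p w).re := by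
  funext w
  unfold dx
  rw [(hre x C hC k c w).fderiv]
  simp only [ContinuousLinearMap.comp_apply, ContinuousLinearMap.smul_apply,
    ContinuousLinearMap.sub_apply, L1_apply, L2_apply, map_one, smul_eq_mul, reCLM_apply]
  rw [← Complex.add_re]
  congr 1
  ring

theorem dy_re (k : ℤ) (c : ℂ) : dy (fun w => (c * ∑' p, T x k p w).re) =
    fun w => (c * I / 2 * ∑' p, T x (k + 1) p w).re + (c * I / 2 * ∑' p, T x (k - 1) p w).re := by
  funext w
  unfold dy
  rw [(hre x C hC k c w).fderiv]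
  simp only [ContinuousLinearMap.comp_apply, ContinuousLinearMap.smul_apply,
    ContinuousLinearMap.sub_apply, L1_apply, L2_apply, Complex.conj_I, smul_eq_mul, reCLM_apply]
  rw [← Complex.add_re]
  congr 1
  ring

theorem diff_re (k : ℤ) (c : ℂ) (w : ℂ) :
    DifferentiableAt ℝ (fun w => (c * ∑' p, T x k p w).re) w :=
  (hre x C hC k c w).differentiableAt

theorem lap_re : ∀ z, lap (fun w => (∑' p, T x 0 p w).re) z + (∑' p, T x 0 p z).re = 0 := by
  intro z
  have e0 : (fun w => (∑' p, T x 0 p w).re) = fun w => (1 * ∑' p, T x 0 p w).re := by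
    funext w; rw [one_mul]
  unfold lap
  rw [e0, dx_re x C hC 0 1, dy_re x C hC 0 1]
  have k1 : dx (fun w => (1 / 2 * ∑' p, T x (0 + 1) p w).re + (-(1 / 2) * ∑' p, T x (0 - 1) p w).re) z =
      dx (fun w => (1 / 2 * ∑' p, T x (0 + 1) p w).re) z +
        dx (fun w => (-(1 / 2) * ∑' p, T x (0 - 1) p w).re) z := by
    unfold dx
    rw [fderiv_fun_add (diff_re x C hC _ _ z) (diff_re x C hC _ _ z)]
    rfl
  have k2 : dy (fun w => (1 * I / 2 * ∑' p, T x (0 + 1) p w).re +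
      (1 * I / 2 * ∑' p, T x (0 - 1) p w).re) z =
      dy (fun w => (1 * I / 2 * ∑' p, T x (0 + 1) p w).re) z +
        dy (fun w => (1 * I / 2 * ∑' p, T x (0 - 1) p w).re) z := by
    unfold dy
    rw [fderiv_fun_add (diff_re x C hC _ _ z) (diff_re x C hC _ _ z)]
    rfl
  rw [k1, k2, dx_re x C hC, dx_re x C hC, dy_re x C hC, dy_re x C hC]
  have i1 : (0 : ℤ) + 1 - 1 = 0 := by norm_num
  have i2 : (0 : ℤ) - 1 + 1 = 0 := by norm_num
  simp only [i1, i2]
  simp only [← Complex.add_re]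
  have : ∀ a b c : ℂ, (1 / 2 / 2 * a + -(1 / 2 / 2) * b + (-(1 / 2) / 2 * b + -(-(1 / 2) / 2) * c) +
      (1 * I / 2 * I / 2 * a + 1 * I / 2 * I / 2 * b +
        (1 * I / 2 * I / 2 * b + 1 * I / 2 * I / 2 * c)) + b) = 0 := by
    intro a b c
    have hI : I * I = -1 := Complex.I_mul_I
    linear_combination ((a + 2 * b + c) / 4) * hI
  rw [this, Complex.zero_re]

end main

theorem conj_T (x : ℤ → ℂ) (hx : Sym x) (p : ℕ × ℕ) (w : ℂ) :
    starRingEnd ℂ (T x 0 p w) = T x 0 p.swap w := by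
  obtain ⟨a, b⟩ := p
  unfold T cst
  simp only [Prod.swap, zero_add, map_mul, map_div₀, map_pow, map_neg, map_one, Complex.conj_conj,
    map_natCast, Complex.conj_ofNat]
  have h1 := hx ((a : ℤ) - b)
  have h2 : -((a : ℤ) - b) = (b : ℤ) - a := by ring
  rw [h2] at h1
  rw [h1]
  have h3 : (-1 : ℂ) ^ b = (-1) ^ a * (-1) ^ ((a : ℤ) - b).natAbs := by
    rw [← pow_add]
    rcases le_total a b with h | h
    · have : ((a : ℤ) - b).natAbs = b - a := by omega
      rw [this]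
      congr 1
      omega
    · have : ((a : ℤ) - b).natAbs = a - b := by omega
      rw [this]
      have e : a + (a - b) = b + 2 * (a - b) := by omega
      rw [e, pow_add, pow_mul]
      norm_num
  rw [h3, mul_comm (b.factorial) (a.factorial)]
  ring

theorem t_SER : S_SER := by
  rintro x hx ⟨C, hC⟩
  refine ⟨fun w => (∑' p, T x 0 p w).re, ?_, lap_re x C hC, ?_⟩
  · exact reCLM.contDiff.comp (contDiff_F' x C hC 0)
  · intro w
    have h1 : starRingEnd ℂ (∑' p, T x 0 p w) = ∑' p, T x 0 p w := by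
      rw [Complex.conj_tsum]
      have : ∀ p, starRingEnd ℂ (T x 0 p w) = T x 0 ((Equiv.prodComm ℕ ℕ) p) w := fun p =>
        conj_T x hx p w
      rw [tsum_congr this]
      exact (Equiv.prodComm ℕ ℕ).tsum_eq (fun p => T x 0 p w)
    rw [Complex.conj_eq_iff_re.1 h1]
    have h2 : tm x w = fun p => T x 0 p w := by
      funext p
      unfold tm T cst
      rw [zero_add]
      ring
    rw [h2]
    exact (summable_T x C hC 0 w).hasSum

end

end Pool.Agent.U55.SG
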